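import Pool.Agent.Helper95.Cone.Ker
import Pool.Agent.Helper28.BPack.ModLine

/-!
# MP_47cd0b (room C): the kernel of the cone frame in the lattice

`cone_hK` is the hypothesis `hK` of `Pool.Agent.Helper73.BP.start`: the rows of colour `c` which are
not in `Q` and not through the special point of their plane over `u` satisfy the condition of Hall.
-/

set_option autoImplicit false
set_option linter.all false

namespace Pool.Agent.Helper95.Cone

open Pool.Agent.Helper28.BPack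

variable {L : Type} [Lattice L] [BoundedOrder L] [Finite L] [IsUpperModularLattice L]

theorem cone_hK {A : Finset L} {u Q o c : L} {ρ : L → L} {adj : L → Finset L}
    [DecidableEq L]
    (hA : ∀ a ∈ A, IsAtom a) (hu : rk u = 2) (hQ : rk Q = 3) (huQ : u ≤ Q)
    (ho : o ∈ A) (hoQ : ¬ o ≤ Q) (hc : c ∈ A) (hcu : c ≤ u)
    (hu2 : ∃ b ∈ A, b ≤ u ∧ b ≠ c)
    (hd : ∃ q ∈ A, q ≤ Q ∧ ¬ q ≤ u)
    (hρo : ρ (u ⊔ o) = o)
    (hρ : ∀ x ∈ A, ¬ x ≤ Q → ρ (u ⊔ x) ∈ A ∧ u ⊔ ρ (u ⊔ x) = u ⊔ x)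
    (hNF : (∃ p ∈ A, ∃ q ∈ A, p ≤ Q ∧ q ≤ Q ∧ ¬ p ≤ u ∧ ¬ q ≤ u ∧ ¬ p ≤ c ⊔ q) ∨
      (∃ x ∈ A, x ≤ u ⊔ o ∧ ¬ x ≤ u ∧ ¬ x ≤ c ⊔ o) ∨
      (∀ x ∈ A, ∀ y ∈ A, ¬ x ≤ Q → ¬ x ≤ u ⊔ o → y ≤ u ⊔ x → ¬ y ≤ u → y ≤ c ⊔ x))
    (hadj : ∀ x ∈ A, ¬ x ≤ Q → ∀ H, rk H = 3 → x ⊔ c ≤ H → ¬ u ≤ H →
      (∃ y ∈ A, y ≤ H ∧ ¬ y ≤ x ⊔ c) → ¬ (o ≤ H ∧ ∃ q ∈ A, q ≤ Q ∧ ¬ q ≤ u ∧ q ≤ H) →
      H ∈ adj (x ⊔ c))
    (S : Finset L)
    (hS : ∀ k ∈ S, ∃ x ∈ A, ¬ x ≤ Q ∧ ¬ ρ (u ⊔ x) ≤ x ⊔ c ∧ k = x ⊔ c) :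
    S.card ≤ (S.biUnion adj).card := by
  classical
  have : Fintype L := Fintype.ofFinite L
  have hcA := hA c hc
  let Vp : L → Prop := fun k => rk k = 2 ∧ c ≤ k ∧ ∃ x ∈ A, x ≠ c ∧ x ≤ k
  let Ep : L → Prop := fun H => rk H = 3 ∧ c ≤ H ∧ ∃ k k', Vp k ∧ Vp k' ∧ k ≤ H ∧ k' ≤ H ∧ k ≠ k'
  -- rows
  have row : ∀ x ∈ A, x ≠ c → Vp (c ⊔ x) := fun x hx hxc =>
    ⟨rk_line hcA (hA x hx) hxc.symm, le_sup_left, x, hx, hxc, le_sup_right⟩
  have rowE : ∀ k, Vp k → ∃ x ∈ A, x ≠ c ∧ k = c ⊔ x := by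
    rintro k ⟨h1, h2, x, hx, hxc, hxk⟩
    exact ⟨x, hx, hxc, (line_eq hcA (hA x hx) hxc.symm h2 hxk h1).symm⟩
  have rowL : ∀ k, Vp k → ∀ x ∈ A, x ≠ c → x ≤ k → c ⊔ x = k := by
    rintro k ⟨h1, h2, -⟩ x hx hxc hxk
    exact line_eq hcA (hA x hx) hxc.symm h2 hxk h1
  have join : ∀ k k', Vp k → Vp k' → k ≠ k' → rk (k ⊔ k') = 3 := by
    intro k k' hk hk' hne
    obtain ⟨x, hx, hxc, rfl⟩ := rowE k' hk'
    have h1 : ¬ x ≤ k := fun h => hne (rowL k hk x hx hxc h).symm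
    have h2 : k ⊔ (c ⊔ x) = k ⊔ x := by
      rw [← sup_assoc, sup_eq_left.mpr hk.2.1]
    rw [h2, rk_sup_atom (hA x hx) h1, hk.1]
  have joinE : ∀ k k' H, Vp k → Vp k' → k ≠ k' → k ≤ H → k' ≤ H → rk H = 3 → k ⊔ k' = H := by
    intro k k' H hk hk' hne h1 h2 h3
    exact eq_of_le_of_rk (sup_le h1 h2) (by rw [h3, join k k' hk hk' hne])
  -- the line `u`
  have hVu : Vp u := by
    obtain ⟨b, hb, hbu, hbc⟩ := hu2
    exact ⟨hu, hcu, b, hb, hbc, hbu⟩
  have hoc : o ≠ c := fun h => hoQ (h ▸ hcu.trans huQ)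
  have hVo : Vp (c ⊔ o) := row o ho hoc
  have hou : ¬ o ≤ u := fun h => hoQ (h.trans huQ)
  have hne_u : ∀ x ∈ A, ¬ x ≤ u → x ≠ c := fun x _ h h' => h (h' ▸ hcu)
  have hEQ : Ep Q := by
    obtain ⟨q, hq, hqQ, hqu⟩ := hd
    refine ⟨hQ, hcu.trans huQ, u, c ⊔ q, hVu, row q hq (hne_u q hq hqu), huQ,
      sup_le (hcu.trans huQ) hqQ, fun h => hqu (h ▸ le_sup_right)⟩
  have hplane : ∀ x ∈ A, ¬ x ≤ u → rk (u ⊔ x) = 3 := fun x hx hxu => by
    rw [rk_sup_atom (hA x hx) hxu, hu]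
  have hplE : ∀ x ∈ A, ¬ x ≤ u → ∀ H, rk H = 3 → u ≤ H → x ≤ H → u ⊔ x = H :=
    fun x hx hxu H h1 h2 h3 => eq_of_le_of_rk (sup_le h2 h3) (by rw [h1, hplane x hx hxu])
  have hEo : Ep (u ⊔ o) := by
    refine ⟨hplane o ho hou, hcu.trans le_sup_left, u, c ⊔ o, hVu, hVo, le_sup_left,
      sup_le (hcu.trans le_sup_left) le_sup_right, fun h => hou (h ▸ le_sup_right)⟩
  let I : {k // Vp k} → {H // Ep H} → Prop := fun k H => k.1 ≤ H.1
  have hL : Lin I := by
    constructor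
    · intro k k' hne
      have hne' : k.1 ≠ k'.1 := fun h => hne (Subtype.ext h)
      exact ⟨⟨k.1 ⊔ k'.1, join _ _ k.2 k'.2 hne', k.2.2.1.trans le_sup_left, k.1, k'.1, k.2, k'.2,
        le_sup_left, le_sup_right, hne'⟩, le_sup_left, le_sup_right⟩
    · intro k k' hne e e' h1 h2 h3 h4
      have hne' : k.1 ≠ k'.1 := fun h => hne (Subtype.ext h)
      apply Subtype.ext
      rw [← joinE _ _ _ k.2 k'.2 hne' h1 h2 e.2.1, ← joinE _ _ _ k.2 k'.2 hne' h3 h4 e'.2.1]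
  have hR0 : ∀ k ∈ S, Vp k := by
    intro k hk
    obtain ⟨x, hx, hxQ, -, rfl⟩ := hS k hk
    rw [sup_comm]
    exact row x hx (hne_u x hx fun h => hxQ (h.trans huQ))
  -- the count
  have key := card_le (I := I) hL (u := ⟨u, hVu⟩) (o := ⟨c ⊔ o, hVo⟩) (Q := ⟨Q, hEQ⟩)
    huQ (fun h => hoQ (le_sup_right.trans h))
    (by
      obtain ⟨q, hq, hqQ, hqu⟩ := hd
      refine ⟨⟨c ⊔ q, row q hq (hne_u q hq hqu)⟩, sup_le (hcu.trans huQ) hqQ, ?_⟩
      intro h
      have h1 : c ⊔ q = u := congrArg Subtype.val h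
      exact hqu (h1 ▸ le_sup_right))
    (by
      rcases hNF with h | h | h
      · left
        obtain ⟨p, hp, q, hq, hpQ, hqQ, hpu, hqu, hpq⟩ := h
        have h1 : (2 : ℕ) < (Finset.univ.filter fun z : {k // Vp k} => I z ⟨Q, hEQ⟩).card := by
          rw [Finset.two_lt_card]
          refine ⟨⟨u, hVu⟩, by simpa [I] using huQ, ⟨c ⊔ p, row p hp (hne_u p hp hpu)⟩,
            by simpa [I] using ⟨hcu.trans huQ, hpQ⟩, ⟨c ⊔ q, row q hq (hne_u q hq hqu)⟩,
            by simpa [I] using ⟨hcu.trans huQ, hqQ⟩, ?_, ?_, ?_⟩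
          · intro h
            have h1 : u = c ⊔ p := congrArg Subtype.val h
            exact hpu (h1 ▸ le_sup_right)
          · intro h
            have h1 : u = c ⊔ q := congrArg Subtype.val h
            exact hqu (h1 ▸ le_sup_right)
          · intro h
            have h1 : c ⊔ p = c ⊔ q := congrArg Subtype.val h
            exact hpq (h1 ▸ le_sup_right)
        exact h1
      · right; left
        obtain ⟨x, hx, hxo, hxu, hxc⟩ := h
        refine ⟨⟨c ⊔ x, row x hx (hne_u x hx hxu)⟩, ?_, ?_, ⟨u ⊔ o, hEo⟩,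
          sup_le (hcu.trans le_sup_left) hxo, le_sup_left,
          sup_le (hcu.trans le_sup_left) le_sup_right⟩
        · intro h
          have h1 : c ⊔ x = u := congrArg Subtype.val h
          exact hxu (h1 ▸ le_sup_right)
        · intro h
          have h1 : c ⊔ x = c ⊔ o := congrArg Subtype.val h
          exact hxc (h1 ▸ le_sup_right)
      · right; right
        intro e hue hoe heQ
        by_contra hcon
        push Not at hcon
        rw [Finset.two_lt_card] at hcon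
        obtain ⟨k1, hk1, k2, hk2, k3, hk3, h12, h13, h23⟩ := hcon
        have g1 : k1.1 ≤ e.1 := by simpa [I] using hk1
        have g2 : k2.1 ≤ e.1 := by simpa [I] using hk2
        have g3 : k3.1 ≤ e.1 := by simpa [I] using hk3
        have main : ∀ a b : {k // Vp k}, a.1 ≤ e.1 → b.1 ≤ e.1 → a.1 ≠ u → b.1 ≠ u → a = b := by
          intro a b ha hb hau hbu
          obtain ⟨x, hx, hxc, hxe⟩ := rowE a.1 a.2
          obtain ⟨y, hy, hyc, hye⟩ := rowE b.1 b.2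
          have hxu : ¬ x ≤ u := fun h => hau (hxe.trans (rowL u hVu x hx hxc h))
          have hyu : ¬ y ≤ u := fun h => hbu (hye.trans (rowL u hVu y hy hyc h))
          have hxH : x ≤ e.1 := le_trans (by rw [hxe]; exact le_sup_right) ha
          have hyH : y ≤ e.1 := le_trans (by rw [hye]; exact le_sup_right) hb
          have e1 := hplE x hx hxu e.1 e.2.1 hue hxH
          have hxQ : ¬ x ≤ Q := fun h => heQ (Subtype.ext
            (e1.symm.trans (hplE x hx hxu Q hQ huQ h)))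
          have hxo : ¬ x ≤ u ⊔ o := fun h => by
            have e2 := hplE x hx hxu (u ⊔ o) (hplane o ho hou) le_sup_left h
            apply hoe
            show c ⊔ o ≤ e.1
            rw [← e1, e2]
            exact sup_le (hcu.trans le_sup_left) le_sup_right
          have h3 := h x hx y hy hxQ hxo (e1 ▸ hyH) hyu
          apply Subtype.ext
          rw [hxe, hye]
          exact (rowL (c ⊔ x) (row x hx hxc) y hy hyc h3).symm
        by_cases f1 : k1.1 = u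
        · have f2 : k2.1 ≠ u := fun h => h12 (Subtype.ext (f1.trans h.symm))
          have f3 : k3.1 ≠ u := fun h => h13 (Subtype.ext (f1.trans h.symm))
          exact h23 (main k2 k3 g2 g3 f2 f3)
        · by_cases f2 : k2.1 = u
          · have f3 : k3.1 ≠ u := fun h => h23 (Subtype.ext (f2.trans h.symm))
            exact h13 (main k1 k3 g1 g3 f1 f3)
          · exact h12 (main k1 k2 g1 g2 f1 f2))
    (R := Finset.univ.filter fun v => v.1 ∈ S)
    (by
      intro x hx h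
      obtain ⟨y, hy, hyQ, -, he⟩ := hS x.1 (by simpa using hx)
      exact hyQ (le_trans (by rw [he]; exact le_sup_left) h))
    (by
      intro h
      have h' : c ⊔ o ∈ S := by simpa using h
      obtain ⟨y, hy, hyQ, hyr, he⟩ := hS _ h'
      apply hyr
      have h1 : u ⊔ y = u ⊔ o := by
        have h2 : u ⊔ (y ⊔ c) = u ⊔ (c ⊔ o) := by rw [he]
        have h3 : u ⊔ (y ⊔ c) = u ⊔ y := by
          rw [sup_comm y c, ← sup_assoc, sup_eq_left.mpr hcu]
        have h4 : u ⊔ (c ⊔ o) = u ⊔ o := by rw [← sup_assoc, sup_eq_left.mpr hcu]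
        rw [← h3, h2, h4]
      rw [h1, hρo, ← he]
      exact le_sup_right)
    (Finset.univ.filter fun e => e.1 ∈ S.biUnion adj) ∅
    (by
      rintro e ⟨hue, hoe⟩ ⟨x, hxR, hxe⟩
      have hxS : x.1 ∈ S := by simpa using hxR
      obtain ⟨y, hy, hyQ, hyr, he⟩ := hS x.1 hxS
      have hxe' : x.1 ≤ e.1 := hxe
      rw [Finset.mem_filter]
      refine ⟨Finset.mem_univ _, Finset.mem_biUnion.mpr ⟨x.1, hxS, ?_⟩⟩
      rw [he]
      apply hadj y hy hyQ e.1 e.2.1 (he ▸ hxe') hue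
      · obtain ⟨k, k', hk, hk', hke, hke', hne⟩ := e.2.2.2
        have : ∃ k, Vp k ∧ k ≤ e.1 ∧ k ≠ x.1 := by
          by_cases h : k = x.1
          · exact ⟨k', hk', hke', fun h2 => hne (h.trans h2.symm)⟩
          · exact ⟨k, hk, hke, h⟩
        obtain ⟨k, hk, hke, hkx⟩ := this
        obtain ⟨z, hz, hzc, hze⟩ := rowE k hk
        refine ⟨z, hz, le_trans (by rw [hze]; exact le_sup_right) hke, ?_⟩
        rw [← he]
        intro h
        exact hkx (hze.trans (rowL x.1 x.2 z hz hzc h))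
      · rintro ⟨h1, q, hq, hqQ, hqu, hqH⟩
        apply hoe
        refine ⟨sup_le e.2.2.1 h1, ⟨c ⊔ q, row q hq (hne_u q hq hqu)⟩,
          sup_le (hcu.trans huQ) hqQ, sup_le e.2.2.1 hqH⟩)
    (by
      intro e hue hoe heQ hall
      exfalso
      have hue' : u ≤ e.1 := hue
      obtain ⟨k, k', hk, hk', hke, hke', hne⟩ := e.2.2.2
      have : ∃ k, Vp k ∧ k ≤ e.1 ∧ k ≠ u := by
        by_cases h : k = u
        · exact ⟨k', hk', hke', fun h2 => hne (h.trans h2.symm)⟩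
        · exact ⟨k, hk, hke, h⟩
      obtain ⟨k, hk, hke, hku⟩ := this
      obtain ⟨x, hx, hxc, hxe⟩ := rowE k hk
      have hxu : ¬ x ≤ u := fun h => hku (hxe.trans (rowL u hVu x hx hxc h))
      have hxH : x ≤ e.1 := le_trans (by rw [hxe]; exact le_sup_right) hke
      have e1 := hplE x hx hxu e.1 e.2.1 hue' hxH
      have hxQ : ¬ x ≤ Q := fun h => heQ (Subtype.ext (e1.symm.trans (hplE x hx hxu Q hQ huQ h)))
      obtain ⟨hr, hre⟩ := hρ x hx hxQ
      set r := ρ (u ⊔ x) with hr0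
      have hru : ¬ r ≤ u := by
        intro h
        rw [sup_eq_left.mpr h] at hre
        have h2 := hplane x hx hxu
        rw [← hre, hu] at h2
        omega
      have hrc := hne_u r hr hru
      have hrH : r ≤ e.1 := by rw [← e1, ← hre]; exact le_sup_right
      have h2 := hall ⟨c ⊔ r, row r hr hrc⟩ (sup_le e.2.2.1 hrH) (by
        intro h
        have h3 : c ⊔ r = u := congrArg Subtype.val h
        exact hru (h3 ▸ le_sup_right))
      have h3 : c ⊔ r ∈ S := by simpa using h2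
      obtain ⟨y, hy, hyQ, hyr, he⟩ := hS _ h3
      apply hyr
      have h1 : u ⊔ y = u ⊔ x := by
        have h2 : u ⊔ (y ⊔ c) = u ⊔ (c ⊔ r) := by rw [he]
        have h3 : u ⊔ (y ⊔ c) = u ⊔ y := by
          rw [sup_comm y c, ← sup_assoc, sup_eq_left.mpr hcu]
        have h4 : u ⊔ (c ⊔ r) = u ⊔ r := by rw [← sup_assoc, sup_eq_left.mpr hcu]
        rw [← h3, h2, h4, hre]
      rw [h1, ← hr0, ← he]
      exact le_sup_right)
  rw [Finset.card_empty, add_zero] at key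
  have h1 : S.card ≤ (Finset.univ.filter fun v : {k // Vp k} => v.1 ∈ S).card := by
    have h2 : S ⊆ (Finset.univ.filter fun v : {k // Vp k} => v.1 ∈ S).image Subtype.val := by
      intro k hk
      exact Finset.mem_image.mpr ⟨⟨k, hR0 k hk⟩, by simpa using hk, rfl⟩
    exact (Finset.card_le_card h2).trans Finset.card_image_le
  have h2 : (Finset.univ.filter fun e : {H // Ep H} => e.1 ∈ S.biUnion adj).card ≤
      (S.biUnion adj).card := by
    apply Finset.card_le_card_of_injOn (fun e => e.1)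
    · intro e he
      have : e ∈ Finset.univ.filter fun e : {H // Ep H} => e.1 ∈ S.biUnion adj := he
      exact (Finset.mem_filter.mp this).2
    · intro e _ e' _ h
      exact Subtype.ext h
  exact h1.trans (key.trans h2)

end Pool.Agent.Helper95.Cone
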