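import Pool.Agent.Helper95.Cone.ConeK
import Pool.Agent.Helper38.Thick.Frame

/-!
# MP_47cd0b (room C): choice of the point `o` of the cone frame
-/

set_option autoImplicit false
set_option linter.all false

namespace Pool.Agent.Helper95.Cone

open Pool.Agent.Helper28.BPack Pool.Agent.Helper38.Thick

variable {L : Type} [Lattice L] [BoundedOrder L] [Finite L] [IsUpperModularLattice L]

/-- the condition on the colour `c` -/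
def NF (A : Finset L) (u Q o c : L) : Prop :=
  (∃ p ∈ A, ∃ q ∈ A, p ≤ Q ∧ q ≤ Q ∧ ¬ p ≤ u ∧ ¬ q ≤ u ∧ ¬ p ≤ c ⊔ q) ∨
    (∃ x ∈ A, x ≤ u ⊔ o ∧ ¬ x ≤ u ∧ ¬ x ≤ c ⊔ o) ∨
    (∀ x ∈ A, ∀ y ∈ A, ¬ x ≤ Q → ¬ x ≤ u ⊔ o → y ≤ u ⊔ x → ¬ y ≤ u → y ≤ c ⊔ x)

/-- For every plane `Q` over `u` there is a good point `o` (every point of its plane over `u` is
as good). -/
theorem exists_o {A : Finset L} {u Q b1 b2 : L}
    (hA : ∀ a ∈ A, IsAtom a) (hcore : Core A) (hu : rk u = 2) (hQ : rk Q = 3) (huQ : u ≤ Q)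
    (hb1 : b1 ∈ A) (hb2 : b2 ∈ A) (hb12 : b1 ≠ b2) (hbu : b1 ⊔ b2 = u)
    (hd : ∃ q ∈ A, q ≤ Q ∧ ¬ q ≤ u) (hoff : ∃ a ∈ A, ¬ a ≤ Q) :
    ∃ o ∈ A, ¬ o ≤ Q ∧ ∀ c ∈ A, c ≤ u → NF A u Q o c := by
  classical
  obtain ⟨q, hq, hqQ, hqu⟩ := hd
  obtain ⟨a, ha, haQ⟩ := hoff
  -- at most one colour is degenerate
  have one : ∀ c ∈ A, c ≤ u → ∀ c' ∈ A, c' ≤ u →
      (∀ p ∈ A, ∀ q ∈ A, p ≤ Q → q ≤ Q → ¬ p ≤ u → ¬ q ≤ u → p ≤ c ⊔ q) →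
      (∀ p ∈ A, ∀ q ∈ A, p ≤ Q → q ≤ Q → ¬ p ≤ u → ¬ q ≤ u → p ≤ c' ⊔ q) → c = c' := by
    intro c hc hcu c' hc' hcu' h1 h2
    by_contra hne
    obtain ⟨z, hz, hzp, hzq, hzu⟩ := hcore q hq b1 hb1 b2 hb2 hb12 (by rw [hbu]; exact hqu)
    have hzQ : z ≤ Q := by
      refine hzp.trans ?_
      rw [sup_assoc, hbu]
      exact sup_le hqQ huQ
    rw [hbu] at hzu
    have g1 := h1 z hz q hq hzQ hqQ hzu hqu
    have g2 := h2 z hz q hq hzQ hqQ hzu hqu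
    have hne1 : ∀ e, e ∈ A → e ≤ u → e ≠ q := fun e _ he h => hqu (h ▸ he)
    have e1 : z ⊔ q = c ⊔ q := line_eq (hA z hz) (hA q hq) hzq g1 le_sup_right
      (rk_line (hA c hc) (hA q hq) (hne1 c hc hcu))
    have e2 : z ⊔ q = c' ⊔ q := line_eq (hA z hz) (hA q hq) hzq g2 le_sup_right
      (rk_line (hA c' hc') (hA q hq) (hne1 c' hc' hcu'))
    have e3 : c ≤ c' ⊔ q := by rw [← e2, e1]; exact le_sup_left
    have e4 : c ⊔ c' = c' ⊔ q := line_eq (hA c hc) (hA c' hc') hne e3 le_sup_left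
      (rk_line (hA c' hc') (hA q hq) (hne1 c' hc' hcu'))
    exact hqu ((e4 ▸ le_sup_right : q ≤ c ⊔ c').trans (sup_le hcu hcu'))
  by_cases hD : ∃ c ∈ A, c ≤ u ∧
      ∀ p ∈ A, ∀ q ∈ A, p ≤ Q → q ≤ Q → ¬ p ≤ u → ¬ q ≤ u → p ≤ c ⊔ q
  · obtain ⟨c0, hc0, hcu0, h0⟩ := hD
    have other : ∀ o c, c ∈ A → c ≤ u → c ≠ c0 → NF A u Q o c := by
      intro o c hc hcu hne
      left
      by_contra hcon
      push Not at hcon
      exact hne (one c hc hcu c0 hc0 hcu0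
        (fun p hp q hq h1 h2 h3 h4 => hcon p hp q hq h1 h2 h3 h4) h0)
    by_cases hE : ∃ o ∈ A, ¬ o ≤ Q ∧ ∃ x ∈ A, x ≤ u ⊔ o ∧ ¬ x ≤ u ∧ ¬ x ≤ c0 ⊔ o
    · obtain ⟨o, ho, hoQ, hx⟩ := hE
      refine ⟨o, ho, hoQ, fun c hc hcu => ?_⟩
      by_cases h : c = c0
      · subst h
        exact Or.inr (Or.inl hx)
      · exact other o c hc hcu h
    · push Not at hE
      refine ⟨a, ha, haQ, fun c hc hcu => ?_⟩
      by_cases h : c = c0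
      · subst h
        refine Or.inr (Or.inr ?_)
        intro x hx y hy hxQ _ hyx hyu
        exact hE x hx hxQ y hy hyx hyu
      · exact other a c hc hcu h
  · push Not at hD
    refine ⟨a, ha, haQ, fun c hc hcu => Or.inl ?_⟩
    obtain ⟨p, hp, q, hq, h1, h2, h3, h4, h5⟩ := hD c hc hcu
    exact ⟨p, hp, q, hq, h1, h2, h3, h4, h5⟩

end Pool.Agent.Helper95.Cone
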