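import Mathlib

/-!
# MP_47cd0b (room C): the kernel in the cone frame

`V` = rows through `c`, `E` = planes through `c`, `I` = incidence (a linear space). `u`, `o` points,
`Q` a line through `u` which misses `o`. A line `e` is allowed if `u` is not on `e` and not
(`o` on `e` and `e` meets `Q`).
-/

set_option linter.all false

namespace Pool.Agent.Helper95.Cone

open Finset

variable {V E : Type*} [Fintype V] [Fintype E] [DecidableEq V] [DecidableEq E]

/-- a linear space -/
structure Lin (I : V → E → Prop) : Prop where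
  ex : ∀ x y, x ≠ y → ∃ e, I x e ∧ I y e
  uni : ∀ x y, x ≠ y → ∀ e e', I x e → I y e → I x e' → I y e' → e = e'

variable (I : V → E → Prop) [∀ x e, Decidable (I x e)]

/-- number of lines through `x` -/
def dg (x : V) : ℕ := (univ.filter fun e => I x e).card

/-- sum over a line -/
def LS (f : V → ℚ) (e : E) : ℚ := ∑ y ∈ univ.filter (fun y => I y e), f y

/-- allowed lines -/
def Alw (u o : V) (Q e : E) : Prop := ¬ I u e ∧ ¬ (I o e ∧ ∃ q, I q Q ∧ I q e)

variable {I}

theorem star (hL : Lin I) (f : V → ℚ) (z : V) :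
    ∑ e ∈ univ.filter (fun e => I z e), LS I f e = ∑ y, f y + ((dg I z : ℚ) - 1) * f z := by
  classical
  unfold LS
  simp_rw [Finset.sum_filter]
  have h1 : ∀ e : E, (if I z e then ∑ y, (if I y e then f y else 0) else 0) =
      ∑ y, (if I z e ∧ I y e then f y else 0) := by
    intro e
    split_ifs with h
    · apply Finset.sum_congr rfl
      intro y _
      by_cases h2 : I y e
      · simp [h, h2]
      · simp [h2]
    · symm
      apply Finset.sum_eq_zero
      intro y _
      simp [h]
  simp_rw [h1]
  rw [Finset.sum_comm]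
  have h2 : ∀ y : V, ∑ e : E, (if I z e ∧ I y e then f y else 0) =
      f y + (if y = z then ((dg I z : ℚ) - 1) * f z else 0) := by
    intro y
    rw [← Finset.sum_filter, Finset.sum_const, nsmul_eq_mul]
    split_ifs with h
    · subst h
      have : (univ.filter fun e => I y e ∧ I y e) = univ.filter fun e => I y e := by
        ext e; simp
      rw [this]
      unfold dg
      ring
    · obtain ⟨e0, h3, h4⟩ := hL.ex z y (fun e => h e.symm)
      have : (univ.filter fun e => I z e ∧ I y e) = {e0} := by
        ext e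
        simp only [mem_filter, mem_univ, true_and, mem_singleton]
        constructor
        · rintro ⟨h5, h6⟩
          exact hL.uni z y (fun e => h e.symm) e e0 h5 h6 h3 h4
        · rintro rfl
          exact ⟨h3, h4⟩
      rw [this]
      simp
  simp_rw [h2]
  rw [Finset.sum_add_distrib]
  congr 1
  simp

theorem card_le_dg (hL : Lin I) {x : V} {e : E} (hx : ¬ I x e) :
    (univ.filter fun y => I y e).card ≤ dg I x := by
  classical
  have : Nonempty E := ⟨e⟩
  have hne : ∀ y, I y e → x ≠ y := fun y hy h => hx (h ▸ hy)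
  choose! g hg1 hg2 using fun y (hy : I y e) => hL.ex x y (hne y hy)
  unfold dg
  apply Finset.card_le_card_of_injOn g
  · intro y hy
    have hy' : I y e := by simpa using hy
    simpa using hg1 y hy'
  · intro y hy y' hy' h
    have h1 : I y e := by simpa using hy
    have h2 : I y' e := by simpa using hy'
    by_contra hne'
    have h3 : g y = e := hL.uni y y' hne' _ _ (hg2 y h1) (h ▸ hg2 y' h2) h1 h2
    exact hx (h3 ▸ hg1 y h1)

/-- the kernel is trivial -/
theorem ker (hL : Lin I) {u o : V} {Q : E} (huQ : I u Q) (hoQ : ¬ I o Q)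
    (hd : ∃ z, I z Q ∧ z ≠ u)
    (hNF : 3 ≤ (univ.filter fun z => I z Q).card ∨
      (∃ x, x ≠ u ∧ x ≠ o ∧ ∃ e, I x e ∧ I u e ∧ I o e) ∨
      ∀ e, I u e → ¬ I o e → e ≠ Q → (univ.filter fun z => I z e).card ≤ 2)
    (f : V → ℚ) (hfQ : ∀ x, I x Q → f x = 0) (hfo : f o = 0)
    (hker : ∀ e, Alw I u o Q e → LS I f e = 0)
    (hcr : ∀ e, I u e → ¬ I o e → e ≠ Q → (∀ x, I x e → x ≠ u → f x ≠ 0) → LS I f e = 0) :
    ∀ x, f x = 0 := by
  classical
  have : Nonempty E := ⟨Q⟩
  have : Nonempty V := ⟨u⟩
  obtain ⟨S, hS⟩ : ∃ S : ℚ, S = ∑ y, f y := ⟨_, rfl⟩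
  have huo : u ≠ o := fun h => hoQ (h ▸ huQ)
  obtain ⟨Po, hPu, hPo⟩ := hL.ex u o huo
  have hPQ : Po ≠ Q := fun h => hoQ (h ▸ hPo)
  set D := univ.filter (fun z => I z Q ∧ z ≠ u) with hD
  set d : ℕ := D.card with hdd
  have hd1 : 1 ≤ d := by
    obtain ⟨z, hz1, hz2⟩ := hd
    exact Finset.card_pos.mpr ⟨z, by simp [hD, hz1, hz2]⟩
  have hQc : (univ.filter fun z => I z Q).card = d + 1 := by
    have : (univ.filter fun z => I z Q) = insert u D := by
      ext z
      simp only [mem_filter, mem_univ, true_and, mem_insert, hD]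
      by_cases h : z = u
      · simp [h, huQ]
      · simp [h]
    rw [this, Finset.card_insert_of_notMem (by simp [hD])]
  have hdg : ∀ x, ¬ I x Q → d + 1 ≤ dg I x := fun x hx => by
    have := card_le_dg hL hx
    omega
  have hLSQ : LS I f Q = 0 := Finset.sum_eq_zero fun y hy => hfQ y (by simpa using hy)
  -- lines through `o` which meet `Q`
  have hm : ∀ z, I z Q → z ≠ u → ∀ m, I z m → I o m → LS I f m = S := by
    intro z hz hzu m hzm hom
    have h1 := star hL f z
    rw [hfQ z hz, mul_zero, add_zero] at h1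
    rw [← hS] at h1
    rw [← h1]
    symm
    apply Finset.sum_eq_single m
    · intro e he hem
      have he' : I z e := by simpa using he
      by_cases heQ : e = Q
      · rw [heQ, hLSQ]
      · apply hker
        refine ⟨fun h => heQ (hL.uni z u hzu _ _ he' h hz huQ), fun h => hem ?_⟩
        exact hL.uni z o (fun h2 => hoQ (h2 ▸ hz)) _ _ he' h.1 hzm hom
    · intro h
      exact absurd (by simpa using hzm) h
  -- the equation at `o`
  have hSo : LS I f Po + d * S = S := by
    have h1 := star hL f o
    rw [hfo, mul_zero, add_zero, ← hS] at h1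
    have hne : ∀ z, z ∈ D → z ≠ o := fun z hz h => hoQ (by
      rw [hD] at hz
      have := (Finset.mem_filter.mp hz).2.1
      rwa [h] at this)
    choose! g hg1 hg2 using fun z (hz : z ∈ D) => hL.ex z o (hne z hz)
    have hDz : ∀ z ∈ D, I z Q ∧ z ≠ u := fun z hz => by simpa [hD] using hz
    have hgi : Set.InjOn g D := by
      intro z hz z' hz' h
      by_contra hne'
      have h2 : g z = Q := hL.uni z z' hne' _ _ (hg1 z hz) (h ▸ hg1 z' hz') (hDz z hz).1
        (hDz z' hz').1
      exact hoQ (h2 ▸ hg2 z hz)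
    have hPg : Po ∉ D.image g := by
      intro h
      obtain ⟨z, hz, h2⟩ := Finset.mem_image.mp h
      have h3 := hg1 z hz
      rw [h2] at h3
      exact hPQ (hL.uni z u (hDz z hz).2 _ _ h3 hPu (hDz z hz).1 huQ)
    have h2 : ∑ e ∈ univ.filter (fun e => I o e), LS I f e =
        ∑ e ∈ insert Po (D.image g), LS I f e := by
      symm
      apply Finset.sum_subset
      · intro e he
        rcases Finset.mem_insert.mp he with h | h
        · subst h; simpa using hPo
        · obtain ⟨z, hz, h2⟩ := Finset.mem_image.mp h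
          subst h2
          simpa using hg2 z hz
      · intro e he hne'
        have he' : I o e := by simpa using he
        rw [Finset.mem_insert] at hne'
        push Not at hne'
        apply hker
        have hue : ¬ I u e := fun h => hne'.1 (hL.uni u o huo _ _ h he' hPu hPo)
        refine ⟨hue, ?_⟩
        rintro ⟨-, q, hq1, hq2⟩
        have hqu : q ≠ u := fun h => hue (h ▸ hq2)
        have hqD : q ∈ D := by simp [hD, hq1, hqu]
        apply hne'.2
        refine Finset.mem_image.mpr ⟨q, hqD, ?_⟩
        exact hL.uni q o (hne q hqD) _ _ (hg1 q hqD) (hg2 q hqD) hq2 he'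
    rw [h2, Finset.sum_insert hPg, Finset.sum_image hgi] at h1
    rw [Finset.sum_congr rfl (fun z hz => hm z (hDz z hz).1 (hDz z hz).2 _ (hg1 z hz) (hg2 z hz)),
      Finset.sum_const, nsmul_eq_mul] at h1
    exact h1
  -- the points of `Po`
  have hxo : ∀ x, I x Po → x ≠ u → x ≠ o → ((dg I x : ℚ) - 1) * f x = LS I f Po - S := by
    intro x hx hxu hxo
    have h1 := star hL f x
    rw [← hS] at h1
    have h2 : ∑ e ∈ univ.filter (fun e => I x e), LS I f e = LS I f Po := by
      apply Finset.sum_eq_single Po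
      · intro e he hne
        have he' : I x e := by simpa using he
        apply hker
        refine ⟨fun h => hne (hL.uni x u hxu _ _ he' h hx hPu), fun h => hne ?_⟩
        exact hL.uni x o hxo _ _ he' h.1 hx hPo
      · intro h
        exact absurd (by simpa using hx) h
    rw [h2] at h1
    linarith
  -- the other points
  have hxj : ∀ x P m, I x P → I u P → x ≠ u → P ≠ Q → P ≠ Po → I x m → I o m →
      ((dg I x : ℚ) - 1) * f x = LS I f P + LS I f m - S := by
    intro x P m hxP huP hxu hPQ' hPPo hxm hom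
    have hoP : ¬ I o P := fun h => hPPo (hL.uni u o huo _ _ huP h hPu hPo)
    have hxo' : x ≠ o := fun h => hoP (h ▸ hxP)
    have hmP : P ≠ m := fun h => hoP (h ▸ hom)
    have h1 := star hL f x
    rw [← hS] at h1
    have h2 : ∑ e ∈ univ.filter (fun e => I x e), LS I f e = ∑ e ∈ {P, m}, LS I f e := by
      symm
      apply Finset.sum_subset
      · intro e he
        rcases Finset.mem_insert.mp he with h | h
        · subst h; simpa using hxP
        · rw [Finset.mem_singleton] at h
          subst h; simpa using hxm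
      · intro e he hne
        have he' : I x e := by simpa using he
        rw [Finset.mem_insert, Finset.mem_singleton] at hne
        push Not at hne
        apply hker
        exact ⟨fun h => hne.1 (hL.uni x u hxu _ _ he' h hxP huP),
          fun h => hne.2 (hL.uni x o hxo' _ _ he' h.1 hxm hom)⟩
    rw [h2, Finset.sum_pair hmP] at h1
    linarith
  -- the value of the line through `x` and `o`
  have hmv : ∀ m, I o m → ¬ I u m → (∃ q, I q Q ∧ I q m) → LS I f m = S := by
    rintro m hom hum ⟨q, h1, h2⟩
    exact hm q h1 (fun h => hum (h ▸ h2)) m h2 hom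
  have hmv0 : ∀ m, ¬ I u m → (¬ ∃ q, I q Q ∧ I q m) → LS I f m = 0 := by
    intro m hum h
    exact hker m ⟨hum, fun h2 => h h2.2⟩
  have hLSPo : LS I f Po = (1 - d) * S := by linarith
  have hQoff : ∀ x P, I x P → I u P → x ≠ u → P ≠ Q → ¬ I x Q := by
    intro x P h1 h2 h3 h4 h5
    exact h4 (hL.uni x u h3 _ _ h1 h2 h5 huQ)
  have hdq : (0 : ℚ) < d := by exact_mod_cast hd1
  -- all group sums vanish
  have hP0 : ∀ P, I u P → ¬ I o P → P ≠ Q → LS I f P = 0 := by
    intro P huP hoP hPQ'
    by_contra hPne
    have hPPo : P ≠ Po := fun h => hoP (h ▸ hPo)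
    have hex : ∃ x0, I x0 P ∧ x0 ≠ u ∧ f x0 = 0 := by
      by_contra hcon
      push Not at hcon
      exact hPne (hcr P huP hoP hPQ' fun x hx hxu => hcon x hx hxu)
    obtain ⟨x0, hx0P, hx0u, hfx0⟩ := hex
    have hxo' : ∀ x, I x P → x ≠ o := fun x hx h => hoP (h ▸ hx)
    obtain ⟨m0, hxm0, hom0⟩ := hL.ex x0 o (hxo' x0 hx0P)
    have hum : ∀ x, I x P → x ≠ u → ∀ m, I x m → I o m → ¬ I u m := by
      intro x hx hxu m hxm hom h
      have : P = m := hL.uni x u hxu _ _ hx huP hxm h
      exact hoP (this ▸ hom)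
    have e0 := hxj x0 P m0 hx0P huP hx0u hPQ' hPPo hxm0 hom0
    rw [hfx0, mul_zero] at e0
    have hm0 : ¬ ∃ q, I q Q ∧ I q m0 := by
      intro h
      rw [hmv m0 hom0 (hum x0 hx0P hx0u m0 hxm0 hom0) h] at e0
      exact hPne (by linarith)
    rw [hmv0 m0 (hum x0 hx0P hx0u m0 hxm0 hom0) hm0] at e0
    have hPS : LS I f P = S := by linarith
    have hS0 : S ≠ 0 := fun h => hPne (hPS.trans h)
    -- the points `x` with `x ∨ o` meeting `Q`
    choose! m hm1 hm2 using fun x (hx : I x P) => hL.ex x o (hxo' x hx)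
    set M := univ.filter (fun x => I x P ∧ x ≠ u ∧ ∃ q, I q Q ∧ I q (m x)) with hM
    have hMm : ∀ x ∈ M, I x P ∧ x ≠ u ∧ ∃ q, I q Q ∧ I q (m x) := fun x hx => by
      simpa [hM] using hx
    have hfx : ∀ x, I x P → x ≠ u → ((dg I x : ℚ) - 1) * f x =
        if (∃ q, I q Q ∧ I q (m x)) then S else 0 := by
      intro x hx hxu
      have h1 := hxj x P (m x) hx huP hxu hPQ' hPPo (hm1 x hx) (hm2 x hx)
      rw [h1, hPS]
      split_ifs with h
      · rw [hmv (m x) (hm2 x hx) (hum x hx hxu _ (hm1 x hx) (hm2 x hx)) h]; ring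
      · rw [hmv0 (m x) (hum x hx hxu _ (hm1 x hx) (hm2 x hx)) h]; ring
    have hdx : ∀ x, I x P → x ≠ u → (d : ℚ) ≤ (dg I x : ℚ) - 1 := by
      intro x hx hxu
      have h1 := hdg x (hQoff x P hx huP hxu hPQ')
      have h2 : ((d + 1 : ℕ) : ℚ) ≤ (dg I x : ℚ) := by exact_mod_cast h1
      push_cast at h2
      linarith
    -- the sum over `P`
    have hsum : LS I f P = ∑ x ∈ M, S / ((dg I x : ℚ) - 1) := by
      unfold LS
      symm
      rw [← Finset.sum_subset (s₁ := M) (s₂ := univ.filter (fun y => I y P)) (f := f)]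
      · apply Finset.sum_congr rfl
        intro x hx
        obtain ⟨h1, h2, h3⟩ := hMm x hx
        have h4 := hfx x h1 h2
        rw [if_pos h3] at h4
        have h5 := hdx x h1 h2
        rw [div_eq_iff (by linarith), ← h4]
        ring
      · intro x hx
        simpa using (hMm x hx).1
      · intro x hx hxM
        have hx' : I x P := by simpa using hx
        by_cases hxu : x = u
        · rw [hxu]; exact hfQ u huQ
        · have h4 := hfx x hx' hxu
          rw [if_neg (fun h => hxM (by simp [hM, hx', hxu, h]))] at h4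
          have h5 := hdx x hx' hxu
          rcases mul_eq_zero.mp h4 with h | h
          · linarith
          · exact h
    have hMd : M.card ≤ d := by
      have hq : ∀ x ∈ M, ∃ q, I q Q ∧ I q (m x) := fun x hx => (hMm x hx).2.2
      choose! q hq1 hq2 using hq
      rw [hdd]
      apply Finset.card_le_card_of_injOn q
      · intro x hx
        have hx' : x ∈ M := hx
        have h1 := hum x (hMm x hx').1 (hMm x hx').2.1 _ (hm1 x (hMm x hx').1) (hm2 x (hMm x hx').1)
        have : q x ∈ D := by
          simp only [hD, mem_filter, mem_univ, true_and]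
          exact ⟨hq1 x hx', fun h => h1 (h ▸ hq2 x hx')⟩
        exact this
      · intro x hx x' hx' h
        have hx1 : x ∈ M := hx
        have hx1' : x' ∈ M := hx'
        by_contra hne
        have hqo : q x ≠ o := fun h2 => hoQ (h2 ▸ hq1 x hx1)
        have e1 : m x = m x' := hL.uni (q x) o hqo _ _ (hq2 x hx1) (hm2 x (hMm x hx1).1)
          (h ▸ hq2 x' hx1') (hm2 x' (hMm x' hx1').1)
        have e2 : m x = P := hL.uni x x' hne _ _ (hm1 x (hMm x hx1).1)
          (e1 ▸ hm1 x' (hMm x' hx1').1) (hMm x hx1).1 (hMm x' hx1').1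
        exact hoP (e2 ▸ hm2 x (hMm x hx1).1)
    -- consequence
    have hsum1 : (1 : ℚ) = ∑ x ∈ M, 1 / ((dg I x : ℚ) - 1) := by
      rw [hPS] at hsum
      have : S * 1 = S * ∑ x ∈ M, 1 / ((dg I x : ℚ) - 1) := by
        rw [Finset.mul_sum, mul_one]
        convert hsum using 2
        ring
      exact mul_left_cancel₀ hS0 this
    have hM1 : ∀ x ∈ M, dg I x = d + 1 := by
      intro x hx
      by_contra hne
      have h1 : d + 2 ≤ dg I x := by
        have := hdg x (hQoff x P (hMm x hx).1 huP (hMm x hx).2.1 hPQ')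
        omega
      have h2 : ∑ x ∈ M, 1 / ((dg I x : ℚ) - 1) < ∑ x ∈ M, 1 / (d : ℚ) := by
        apply Finset.sum_lt_sum
        · intro y hy
          exact one_div_le_one_div_of_le hdq (hdx y (hMm y hy).1 (hMm y hy).2.1)
        · refine ⟨x, hx, ?_⟩
          apply one_div_lt_one_div_of_lt hdq
          have : ((d + 2 : ℕ) : ℚ) ≤ (dg I x : ℚ) := by exact_mod_cast h1
          push_cast at this
          linarith
      rw [← hsum1, Finset.sum_const, nsmul_eq_mul] at h2
      have h3 : (M.card : ℚ) ≤ d := by exact_mod_cast hMd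
      have h4 : (M.card : ℚ) * (1 / d) ≤ 1 := by
        rw [mul_one_div, div_le_one hdq]
        exact h3
      linarith
    have hMc : M.card = d := by
      have h2 : ∑ x ∈ M, 1 / ((dg I x : ℚ) - 1) = ∑ x ∈ M, 1 / (d : ℚ) := by
        apply Finset.sum_congr rfl
        intro x hx
        rw [hM1 x hx]
        push_cast
        ring_nf
      rw [← hsum1, Finset.sum_const, nsmul_eq_mul, mul_one_div] at h2
      have h3 : (M.card : ℚ) = d := by
        field_simp at h2
        linarith
      exact_mod_cast h3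
    have hPc : d + 2 ≤ (univ.filter fun z => I z P).card := by
      have h1 : insert u (insert x0 M) ⊆ univ.filter fun z => I z P := by
        intro z hz
        rcases Finset.mem_insert.mp hz with h | h
        · subst h; simpa using huP
        · rcases Finset.mem_insert.mp h with h | h
          · subst h; simpa using hx0P
          · simpa using (hMm z h).1
      have h2 : x0 ∉ M := by
        intro h
        have h3 := (hMm x0 h).2.2
        have h4 : m x0 = m0 := hL.uni x0 o (hxo' x0 hx0P) _ _ (hm1 x0 hx0P) (hm2 x0 hx0P) hxm0 hom0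
        rw [h4] at h3
        exact hm0 h3
      have h3 : u ∉ insert x0 M := by
        intro h
        rcases Finset.mem_insert.mp h with h | h
        · exact hx0u h.symm
        · exact (hMm u h).2.1 rfl
      have h4 := Finset.card_le_card h1
      rw [Finset.card_insert_of_notMem h3, Finset.card_insert_of_notMem h2, hMc] at h4
      omega
    -- the points of `Po`
    set T := univ.filter (fun x => I x Po ∧ x ≠ u ∧ x ≠ o) with hT
    have hTm : ∀ x ∈ T, I x Po ∧ x ≠ u ∧ x ≠ o := fun x hx => by simpa [hT] using hx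
    have hTc : T.card + 2 ≤ d + 1 := by
      obtain ⟨x1, hx1⟩ : M.Nonempty := Finset.card_pos.mp (by omega)
      have h1 : ¬ I x1 Po := by
        intro h
        exact hPPo (hL.uni x1 u (hMm x1 hx1).2.1 _ _ (hMm x1 hx1).1 huP h hPu)
      have h2 := card_le_dg hL h1
      rw [hM1 x1 hx1] at h2
      have h3 : insert u (insert o T) ⊆ univ.filter fun z => I z Po := by
        intro z hz
        rcases Finset.mem_insert.mp hz with h | h
        · subst h; simpa using hPu
        · rcases Finset.mem_insert.mp h with h | h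
          · subst h; simpa using hPo
          · simpa using (hTm z h).1
      have h4 : o ∉ T := fun h => (hTm o h).2.2 rfl
      have h5 : u ∉ insert o T := by
        intro h
        rcases Finset.mem_insert.mp h with h | h
        · exact huo h
        · exact (hTm u h).2.1 rfl
      have h6 := Finset.card_le_card h3
      rw [Finset.card_insert_of_notMem h5, Finset.card_insert_of_notMem h4] at h6
      omega
    have hTs : LS I f Po = ∑ x ∈ T, (-(d * S)) / ((dg I x : ℚ) - 1) := by
      unfold LS
      symm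
      rw [← Finset.sum_subset (s₁ := T) (s₂ := univ.filter (fun y => I y Po)) (f := f)]
      · apply Finset.sum_congr rfl
        intro x hx
        obtain ⟨h1, h2, h3⟩ := hTm x hx
        have h4 := hxo x h1 h2 h3
        rw [hLSPo] at h4
        have h5 := hdg x (hQoff x Po h1 hPu h2 hPQ)
        have h6 : ((d + 1 : ℕ) : ℚ) ≤ (dg I x : ℚ) := by exact_mod_cast h5
        push_cast at h6
        rw [div_eq_iff (by linarith)]
        linarith
      · intro x hx
        simpa using (hTm x hx).1
      · intro x hx hxT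
        have hx' : I x Po := by simpa using hx
        by_cases hxu : x = u
        · rw [hxu]; exact hfQ u huQ
        · by_cases hxo2 : x = o
          · rw [hxo2]; exact hfo
          · exact absurd (by simp [hT, hx', hxu, hxo2]) hxT
    have hT1 : ((d : ℚ) - 1) = d * ∑ x ∈ T, 1 / ((dg I x : ℚ) - 1) := by
      rw [hLSPo] at hTs
      have h1 : S * ((d : ℚ) - 1) = S * (d * ∑ x ∈ T, 1 / ((dg I x : ℚ) - 1)) := by
        have h2 : ∑ x ∈ T, (-(d * S)) / ((dg I x : ℚ) - 1) =
            -(S * (d * ∑ x ∈ T, 1 / ((dg I x : ℚ) - 1))) := by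
          rw [Finset.mul_sum, Finset.mul_sum, ← Finset.sum_neg_distrib]
          apply Finset.sum_congr rfl
          intro x _
          ring
        rw [h2] at hTs
        linarith
      exact mul_left_cancel₀ hS0 h1
    have hTb : ∑ x ∈ T, 1 / ((dg I x : ℚ) - 1) ≤ T.card * (1 / ((d : ℚ) + 1)) := by
      rw [← nsmul_eq_mul, ← Finset.sum_const]
      apply Finset.sum_le_sum
      intro x hx
      have h1 : ¬ I x P := by
        intro h
        exact hPPo (hL.uni x u (hTm x hx).2.1 _ _ h huP (hTm x hx).1 hPu)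
      have h2 := card_le_dg hL h1
      have h3 : ((d + 2 : ℕ) : ℚ) ≤ (dg I x : ℚ) := by exact_mod_cast hPc.trans h2
      push_cast at h3
      exact one_div_le_one_div_of_le (by linarith) (by linarith)
    have hT2 : (T.card : ℚ) ≤ (d : ℚ) - 1 := by
      have h1 : ((T.card + 2 : ℕ) : ℚ) ≤ ((d + 1 : ℕ) : ℚ) := by exact_mod_cast hTc
      push_cast at h1
      linarith
    have hd2 : (d : ℚ) - 1 ≤ 0 := by
      have h1 : ((d : ℚ) - 1) ≤ d * (((d : ℚ) - 1) * (1 / ((d : ℚ) + 1))) := by
        calc ((d : ℚ) - 1) = d * ∑ x ∈ T, 1 / ((dg I x : ℚ) - 1) := hT1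
          _ ≤ d * (T.card * (1 / ((d : ℚ) + 1))) := mul_le_mul_of_nonneg_left hTb hdq.le
          _ ≤ d * (((d : ℚ) - 1) * (1 / ((d : ℚ) + 1))) := by
              apply mul_le_mul_of_nonneg_left _ hdq.le
              apply mul_le_mul_of_nonneg_right hT2
              have h9 : (0 : ℚ) < (d : ℚ) + 1 := by linarith
              exact (one_div_pos.mpr h9).le
      by_contra hcon
      push Not at hcon
      have h2 : (d : ℚ) * (((d : ℚ) - 1) * (1 / ((d : ℚ) + 1))) = ((d : ℚ) - 1) * (d / (d + 1)) := by
        ring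
      rw [h2] at h1
      have h3 : (d : ℚ) / (d + 1) < 1 := by
        rw [div_lt_one (by linarith)]
        linarith
      nlinarith
    have hd3 : d = 1 := by
      have : (d : ℚ) ≤ 1 := by linarith
      have : d ≤ 1 := by exact_mod_cast this
      omega
    rcases hNF with h | h | h
    · omega
    · obtain ⟨x, hxu, hxo3, e, h1, h2, h3⟩ := h
      have h4 : e = Po := hL.uni u o huo _ _ h2 h3 hPu hPo
      subst h4
      have h5 : x ∈ T := by simp [hT, h1, hxu, hxo3]
      have h6 : 0 < T.card := Finset.card_pos.mpr ⟨x, h5⟩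
      omega
    · have := h P huP hoP hPQ'
      omega
  -- the total vanishes
  have hSz : S = 0 := by
    have h1 := star hL f u
    rw [hfQ u huQ, mul_zero, add_zero, ← hS] at h1
    have h2 : ∑ e ∈ univ.filter (fun e => I u e), LS I f e = LS I f Po := by
      apply Finset.sum_eq_single Po
      · intro e he hne
        have he' : I u e := by simpa using he
        by_cases heQ : e = Q
        · rw [heQ, hLSQ]
        · exact hP0 e he' (fun h => hne (hL.uni u o huo _ _ he' h hPu hPo)) heQ
      · intro h
        exact absurd (by simpa using hPu) h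
    rw [h2, hLSPo] at h1
    have h3 : (d : ℚ) * S = 0 := by linarith
    rcases mul_eq_zero.mp h3 with h | h
    · linarith
    · exact h
  -- conclusion
  intro x
  by_cases hxQ : I x Q
  · exact hfQ x hxQ
  by_cases hxo2 : x = o
  · rw [hxo2]; exact hfo
  have hxu : x ≠ u := fun h => hxQ (h ▸ huQ)
  have h5 := hdg x hxQ
  have h6 : ((d + 1 : ℕ) : ℚ) ≤ (dg I x : ℚ) := by exact_mod_cast h5
  push_cast at h6
  obtain ⟨P, hxP, huP⟩ := hL.ex x u hxu
  by_cases hPP : P = Po
  · subst hPP
    have h1 := hxo x hxP hxu hxo2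
    rw [hLSPo, hSz] at h1
    have h2 : ((dg I x : ℚ) - 1) * f x = 0 := by rw [h1]; ring
    rcases mul_eq_zero.mp h2 with h | h
    · linarith
    · exact h
  · obtain ⟨m, hxm, hom⟩ := hL.ex x o hxo2
    have hPQ' : P ≠ Q := fun h => hxQ (h ▸ hxP)
    have h1 := hxj x P m hxP huP hxu hPQ' hPP hxm hom
    have hoP : ¬ I o P := fun h => hPP (hL.uni u o huo _ _ huP h hPu hPo)
    have hum : ¬ I u m := by
      intro h
      have : P = m := hL.uni x u hxu _ _ hxP huP hxm h
      exact hoP (this ▸ hom)
    have hmS : LS I f m = S ∨ LS I f m = 0 := by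
      by_cases h : ∃ q, I q Q ∧ I q m
      · exact Or.inl (hmv m hom hum h)
      · exact Or.inr (hmv0 m hum h)
    rw [hP0 P huP hoP hPQ'] at h1
    have h2 : ((dg I x : ℚ) - 1) * f x = 0 := by
      rcases hmS with h | h
      · rw [h1, h]; ring
      · rw [h1, h, hSz]; ring
    rcases mul_eq_zero.mp h2 with h | h
    · linarith
    · exact h

/-- extension by zero -/
def ext0 (R : Finset V) : (R → ℚ) →ₗ[ℚ] (V → ℚ) :=
  LinearMap.pi fun x => if h : x ∈ R then LinearMap.proj ⟨x, h⟩ else 0

theorem ext0_mem {R : Finset V} (f : R → ℚ) {x : V} (h : x ∈ R) : ext0 R f x = f ⟨x, h⟩ := by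
  simp [ext0, h]

theorem ext0_not {R : Finset V} (f : R → ℚ) {x : V} (h : x ∉ R) : ext0 R f x = 0 := by
  simp [ext0, h]

/-- **The deficiency of a set `R` of rows** is at most the number of the groups whose rows are all
in `R`. -/
theorem card_le (hL : Lin I) {u o : V} {Q : E} (huQ : I u Q) (hoQ : ¬ I o Q)
    (hd : ∃ z, I z Q ∧ z ≠ u)
    (hNF : 3 ≤ (univ.filter fun z => I z Q).card ∨
      (∃ x, x ≠ u ∧ x ≠ o ∧ ∃ e, I x e ∧ I u e ∧ I o e) ∨
      ∀ e, I u e → ¬ I o e → e ≠ Q → (univ.filter fun z => I z e).card ≤ 2)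
    {R : Finset V} (hRQ : ∀ x ∈ R, ¬ I x Q) (hRo : o ∉ R) (a b : Finset E)
    (ha : ∀ e, Alw I u o Q e → (∃ x ∈ R, I x e) → e ∈ a)
    (hb : ∀ e, I u e → ¬ I o e → e ≠ Q → (∀ x, I x e → x ≠ u → x ∈ R) → e ∈ b) :
    R.card ≤ a.card + b.card := by
  classical
  let ls : E → ((R → ℚ) →ₗ[ℚ] ℚ) := fun e =>
    (∑ y ∈ univ.filter (fun y => I y e), (LinearMap.proj y : (V → ℚ) →ₗ[ℚ] ℚ)).comp (ext0 R)
  have hls : ∀ e f, ls e f = LS I (ext0 R f) e := by
    intro e f
    simp [ls, LS]
  let φ : (R → ℚ) →ₗ[ℚ] ((a ⊕ b) → ℚ) := LinearMap.pi fun s => ls (Sum.elim Subtype.val Subtype.val s)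
  have hinj : Function.Injective φ := by
    rw [← LinearMap.ker_eq_bot, LinearMap.ker_eq_bot']
    intro f hf
    have h1 : ∀ e ∈ a, LS I (ext0 R f) e = 0 := by
      intro e he
      rw [← hls]
      exact congrFun hf (Sum.inl ⟨e, he⟩)
    have h2 : ∀ e ∈ b, LS I (ext0 R f) e = 0 := by
      intro e he
      rw [← hls]
      exact congrFun hf (Sum.inr ⟨e, he⟩)
    have h3 := ker hL huQ hoQ hd hNF (ext0 R f)
      (fun x hx => ext0_not f fun h => hRQ x h hx) (ext0_not f hRo)
      (fun e he => by
        by_cases h : ∃ x ∈ R, I x e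
        · exact h1 e (ha e he h)
        · push Not at h
          apply Finset.sum_eq_zero
          intro y hy
          exact ext0_not f fun h4 => h y h4 (by simpa using hy))
      (fun e hue hoe heQ h => h2 e (hb e hue hoe heQ fun x hx hxu => by
        by_contra hxR
        exact h x hx hxu (ext0_not f hxR)))
    funext x
    have h4 := h3 x.1
    rw [ext0_mem f x.2] at h4
    exact h4
  have h5 := LinearMap.finrank_le_finrank_of_injective hinj
  simpa [Module.finrank_fintype_fun_eq_card] using h5

end Pool.Agent.Helper95.Cone
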